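import Pool.Agent.helper51.RMX.Spec

/-!
# Row rmx:EXF (MP_24e2e7_nt): the exact formula for the product of the values over the odd characters
-/

set_option autoImplicit false

namespace Pool.Agent.RMX

open Pool.Agent.RB NumberField IsDedekindDomain Module
open scoped nonZeroDivisors Real Classical IsMulCommutative

/-- the divisors of the elements `x` with `x c(x) = 1` are anti-invariant -/
theorem EXF_le {K : Type} [Field K] [NumberField K] (c : K ≃+* K) (hcc : ∀ x : K, c (c x) = x)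
    (W T : Set (HOS K)) : dM c W T ≤ DV c W := by
  rintro D ⟨x, ⟨h1, h2, -⟩, h4⟩
  refine ⟨fun P hP => ?_, fun P => ?_⟩
  · rw [h4 P]
    exact h2 P hP
  · rw [h4, h4]
    have h5 : ord (act c P) (c (c (x : K))) = ord P (c (x : K)) := ((ORD K).2.2.2.2.2.1 c P (c (x : K))).2
    rw [hcc] at h5
    have h6 : c (x : K) = (x : K)⁻¹ := eq_inv_of_mul_eq_one_right h1
    rw [h5, h6, ord_inv]

theorem EXF (hKPL : KPL_stmt) (hPEX : PEX_stmt) (hIXX : IXX_stmt) (hRMK : RMK_stmt) : EXF_stmt := by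
  intro F K _ _ _ _ _ _ _ _ c hcc Lf hLf T hram htor
  obtain ⟨k, _, _, _, _, _, _, _, _, hck, hc1, hdeg⟩ := hKPL F K c hcc
  have hc2 : (c : K ≃+* K) ≠ RingEquiv.refl K := by
    intro h
    apply hc1
    apply AlgEquiv.ext
    intro x
    exact congrArg (fun f : K ≃+* K => f x) h
  have hck' : ∀ x : k, (c : K ≃+* K) (algebraMap k K x) = algebraMap k K x := hck
  have hinv : ∀ x : K, (c : K ≃+* K) ((c : K ≃+* K) x) = x := by
    intro x
    show c (c x) = x
    rw [hcc, hcc]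
    exact IsCMField.complexConj_apply_apply K x
  obtain ⟨hR1, hR2, hR3⟩ := hRMK k K (c : K ≃+* K) hc2 hck'
  -- the primes of `k` above `T`
  have hfin : {q : HOS k | q.under (𝓞 F) ∈ T}.Finite := by
    have h1 : {q : HOS k | q.under (𝓞 F) ∈ T} = ⋃ p ∈ T, {q : HOS k | q.under (𝓞 F) = p} := by
      ext q
      simp
    rw [h1]
    exact Set.Finite.biUnion (Finset.finite_toSet _) fun p _ => CP2_fin F k p
  set Tk : Finset (HOS k) := hfin.toFinset with hTkdef
  have hTk : ∀ q, q ∈ Tk ↔ q.under (𝓞 F) ∈ T := fun q => by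
    rw [hTkdef, Set.Finite.mem_toFinset]
    exact Iff.rfl
  have hund : ∀ P : HOS K, (P.under (𝓞 k)).under (𝓞 F) = P.under (𝓞 F) := fun P =>
    (VLU k K).2.2.2 F P
  have hty : ∀ q ∈ Tk, ty K q ≠ 0 := by
    intro q hq h0
    rw [hTk] at hq
    obtain ⟨P, hP⟩ := (VLU k K).2.1 q
    refine hram P ?_ ((hR1 P).2 ?_)
    · rw [← hund, hP]
      exact hq
    · rw [hP]
      exact h0
  have hset : {P : HOS K | P.under (𝓞 k) ∈ Tk} = {P : HOS K | P.under (𝓞 F) ∈ T} := by
    ext P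
    rw [Set.mem_ofPred_eq, Set.mem_ofPred_eq, hTk, hund]
  have hset' : {P : HOS K | P.under (𝓞 k) ∉ Tk} = {P : HOS K | P.under (𝓞 F) ∉ T} := by
    ext P
    rw [Set.mem_ofPred_eq, Set.mem_ofPred_eq, hTk, hund]
  obtain ⟨ε, hε, hz⟩ := hPEX F k K c hc1 hck Lf hLf T Tk hTk hty
  have hz' := hIXX k K (c : K ≃+* K) hc2 hck' Tk hty (by
      intro ζ hζ h
      refine htor ζ hζ fun P hP => h P ?_
      rw [hTk, hund]
      exact hP)
  rw [hset, hset', ← hR2] at hz'
  set I : ℕ := (dM (c : K ≃+* K) {P : HOS K | P.under (𝓞 F) ∉ T} {P : HOS K | P.under (𝓞 F) ∈ T}).relIndex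
    (DV (c : K ≃+* K) {P : HOS K | P.under (𝓞 F) ∉ T}) with hI
  set A : ℂ := ∏ χ ∈ odd c, LST Lf ∅ T χ with hA
  have hI0 : I ≠ 0 := by
    intro h
    rw [h, Nat.cast_zero, zero_mul] at hz'
    have h1 : (2 : ℤ) * (classNumber K : ℤ) * ∏ q ∈ Tk, ((nm q : ℤ) - ty K q) ≠ 0 := by
      refine mul_ne_zero (mul_ne_zero two_ne_zero ?_) ?_
      · have : classNumber K ≠ 0 := classNumber_ne_zero K
        exact_mod_cast this
      · rw [Finset.prod_ne_zero_iff]
        intro q _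
        have h1 := IDX_nm q
        have h2 := IDX_ty K q
        omega
    exact h1 hz'.symm
  refine ⟨hR3, EXF_le _ hinv _ _, hI0, ε, hε, ?_⟩
  have hzc : (I : ℂ) * (2 ^ (Rm (c : K ≃+* K)).ncard * (classNumber k : ℂ) *
      (IsCMField.indexRealUnits K : ℂ) * (Units.torsionOrder K : ℂ)) =
      2 * (classNumber K : ℂ) * ∏ q ∈ Tk, ((nm q : ℂ) - (ty K q : ℂ)) := by
    exact_mod_cast congrArg (fun t : ℤ => (t : ℂ)) hz'
  have hX : ((classNumber k : ℂ) *
      (IsCMField.indexRealUnits K : ℂ) * (Units.torsionOrder K : ℂ)) ≠ 0 := by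
    refine mul_ne_zero (mul_ne_zero ?_ ?_) ?_
    · have : classNumber k ≠ 0 := Fintype.card_ne_zero
      exact_mod_cast this
    · have : IsCMField.indexRealUnits K ≠ 0 := by
        rcases IsCMField.indexRealUnits_eq_one_or_two K with h | h <;> omega
      exact_mod_cast this
    · have : Units.torsionOrder K ≠ 0 := NeZero.ne _
      exact_mod_cast this
  apply mul_left_cancel₀ hX
  rw [hdeg] at hz
  rw [pow_add]
  linear_combination 2 * hz - ((ε : ℂ) * 2 ^ (finrank ℚ F * (odd c).card)) * hzc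

end Pool.Agent.RMX
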