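import Pool.Agent.helper51.RMX.Spec

/-!
# Row rmx:IAX (MP_24e2e7_nt): the index of the divisors of the elements congruent to 1 modulo `T`, with equality
-/

set_option autoImplicit false

namespace Pool.Agent.RMX

open Pool.Agent.RB NumberField IsDedekindDomain Module
open scoped nonZeroDivisors Real Classical IsMulCommutative

section

variable {K : Type} [Field K] [NumberField K]

theorem IAX_range (x : Kˣ) : IDA_phi K (Additive.ofMul x) ∈ (IDA_iota K).range := by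
  have hfin : {P : HOS K | ord P (x : K) ≠ 0}.Finite := (ORD K).1 (x : K) x.ne_zero
  refine ⟨Finsupp.ofSupportFinite (fun P => ord P (x : K)) hfin, ?_⟩
  funext P
  rfl

/-- the main equality: `[dM ∅ : dM T] w = [Ml ∅ : Ml T]` -/
theorem IAX_main (c : K ≃+* K) (W T : Set (HOS K))
    (h1 : IDA_mu K ≤ Ml c W ∅) (h2 : ∀ x ∈ IDA_mu K, x ∈ Ml c W T → x = 1)
    (h3 : Ml c W T ≤ Ml c W ∅)
    (h4 : ∀ x ∈ Ml c W ∅, (∀ P : HOS K, ord P (x : K) = 0) → x ∈ IDA_mu K) :
    (dM c W T).relIndex (dM c W ∅) * Units.torsionOrder K = (Ml c W T).relIndex (Ml c W ∅) := by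
  set A := Subgroup.toAddSubgroup (Ml c W T) with hA
  set B := Subgroup.toAddSubgroup (Ml c W ∅) with hB
  set U := Subgroup.toAddSubgroup (IDA_mu K) with hU
  have hAB : A ≤ B := h3
  have hUB : U ≤ B := h1
  have e1 : (dM c W T).relIndex (dM c W ∅) = (A.map (IDA_phi K)).relIndex (B.map (IDA_phi K)) := by
    rw [IDA_dM, IDA_dM, AddSubgroup.relIndex_comap]
    have e : ((B.map (IDA_phi K)).comap (IDA_iota K)).map (IDA_iota K) = B.map (IDA_phi K) := by
      rw [AddSubgroup.map_comap_eq]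
      refine inf_eq_right.2 ?_
      rintro y ⟨x, hx, rfl⟩
      exact IAX_range x.toMul
    rw [e]
  have hker : B ⊓ (IDA_phi K).ker = U := by
    ext x
    constructor
    · rintro ⟨hx1, hx2⟩
      have hx3 : IDA_phi K x = 0 := hx2
      exact h4 x.toMul hx1 (fun P => congrFun hx3 P)
    · intro hx
      refine ⟨hUB hx, ?_⟩
      obtain ⟨u, hu, hx'⟩ := hx
      show IDA_phi K x = 0
      funext P
      show ord P ((x.toMul : Kˣ) : K) = 0
      have h5 : (x.toMul : Kˣ) = Units.map (algebraMap (𝓞 K) K : 𝓞 K →* K) u := hx'.symm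
      rw [h5]
      exact IDA_ord_unit u P
  have e2 : (A.map (IDA_phi K)).relIndex (B.map (IDA_phi K)) = (A ⊔ U).relIndex B := by
    rw [AddSubgroup.relIndex_map_map]
    have e3 : B ⊔ (IDA_phi K).ker = B ⊔ (A ⊔ (IDA_phi K).ker) := by
      rw [← sup_assoc, sup_eq_left.2 hAB]
    rw [e3, AddSubgroup.relIndex_sup_right, ← AddSubgroup.inf_relIndex_right, sup_inf_assoc_of_le _ hAB,
      inf_comm, hker]
  have e4 : A.relIndex (A ⊔ U) = Units.torsionOrder K := by
    rw [AddSubgroup.relIndex_sup_left]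
    have e5 : A.relIndex U = (Ml c W T).relIndex (IDA_mu K) := rfl
    rw [e5]
    have e6 : (Ml c W T).relIndex (IDA_mu K) = (⊥ : Subgroup Kˣ).relIndex (IDA_mu K) := by
      rw [← Subgroup.inf_relIndex_right]
      have e7 : Ml c W T ⊓ IDA_mu K = ⊥ := by
        rw [eq_bot_iff]
        rintro x ⟨hx1, hx2⟩
        exact Subgroup.mem_bot.2 (h2 x hx2 hx1)
      rw [e7]
    rw [e6, Subgroup.relIndex_bot_left, IDA_mu_card]
  have e8 : A.relIndex (A ⊔ U) * (A ⊔ U).relIndex B = A.relIndex B :=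
    AddSubgroup.relIndex_mul_relIndex _ _ _ le_sup_left (sup_le hAB hUB)
  have e9 : A.relIndex B = (Ml c W T).relIndex (Ml c W ∅) := rfl
  rw [← e9, ← e8, e4, mul_comm, e1, e2]

end

/-- the index of `Ml` is the product -/
theorem IAX_prod (hRSX : RSX_stmt) (hSRJ : SRJ_stmt) (k K : Type) [Field k] [NumberField k] [Field K] [NumberField K]
    [Algebra k K] [Algebra.IsQuadraticExtension k K] [IsTotallyReal k] [IsCMField K] (c : K ≃+* K)
    (hc : c ≠ RingEquiv.refl K) (hck : ∀ x : k, c (algebraMap k K x) = algebraMap k K x) (T : Finset (HOS k))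
    (h1 : ∀ q ∈ T, ty K q ≠ 0) (T' : Finset (HOS k)) (hT' : T' ⊆ T) :
    (((Ml c {P : HOS K | P.under (𝓞 k) ∉ T} {P : HOS K | P.under (𝓞 k) ∈ T'}).relIndex
      (Ml c {P : HOS K | P.under (𝓞 k) ∉ T} ∅) : ℕ) : ℤ) = ∏ q ∈ T', ((nm q : ℤ) - ty K q) := by
  set W : Set (HOS K) := {P : HOS K | P.under (𝓞 k) ∉ T} with hWdef
  induction T' using Finset.induction_on with
  | empty =>
    have e : {P : HOS K | P.under (𝓞 k) ∈ (∅ : Finset (HOS k))} = ∅ := by
      ext P
      simp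
    rw [e, Subgroup.relIndex_self]
    simp
  | insert q T' hq ih =>
    have hqT : q ∈ T := hT' (Finset.mem_insert_self _ _)
    have ih' := ih (fun r hr => hT' (Finset.mem_insert_of_mem hr))
    rw [Finset.prod_insert hq]
    set X := Ml c {P : HOS K | P.under (𝓞 k) ≠ q} ∅ with hX
    set X1 := Ml c {P : HOS K | P.under (𝓞 k) ≠ q} {P : HOS K | P.under (𝓞 k) = q} with hX1
    set MT := Ml c W {P : HOS K | P.under (𝓞 k) ∈ T'} with hMT
    have hres : ((X1.relIndex X : ℕ) : ℤ) = (nm q : ℤ) - ty K q :=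
      hRSX k K c hc hck q (h1 q hqT)
    have hW : ∀ P : HOS K, P.under (𝓞 k) = q → P ∉ W := by
      intro P hP hPW
      have hPW' : P.under (𝓞 k) ∉ T := hPW
      exact hPW' (hP ▸ hqT)
    have e1 : Ml c W {P : HOS K | P.under (𝓞 k) ∈ insert q T'} = MT ⊓ X1 := by
      ext x
      constructor
      · rintro ⟨a1, a2, a3⟩
        refine ⟨⟨a1, a2, fun P hP => a3 P (Finset.mem_insert_of_mem hP)⟩, a1, fun P hP => ?_,
          fun P hP => a3 P ?_⟩
        · refine a2 P (hW P ?_)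
          by_contra h
          exact hP h
        · show P.under (𝓞 k) ∈ insert q T'
          have hP' : P.under (𝓞 k) = q := hP
          rw [hP']
          exact Finset.mem_insert_self _ _
      · rintro ⟨⟨a1, a2, a3⟩, b1, b2, b3⟩
        refine ⟨a1, a2, fun P hP => ?_⟩
        have hP' : P.under (𝓞 k) ∈ insert q T' := hP
        rcases Finset.mem_insert.1 hP' with h | h
        · exact b3 P h
        · exact a3 P h
    have e2 : MT ≤ Ml c W ∅ := by
      rintro x ⟨a1, a2, a3⟩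
      exact ⟨a1, a2, fun P hP => absurd hP (Set.notMem_empty P)⟩
    have e3 : MT ≤ X := by
      rintro x ⟨a1, a2, a3⟩
      refine ⟨a1, fun P hP => a2 P (hW P ?_), fun P hP => absurd hP (Set.notMem_empty P)⟩
      by_contra h
      exact hP h
    have e3' : X1 ≤ X := by
      rintro x ⟨a1, a2, a3⟩
      exact ⟨a1, a2, fun P hP => absurd hP (Set.notMem_empty P)⟩
    have e5 : MT ⊔ X1 = X := by
      refine le_antisymm (sup_le e3 e3') ?_
      intro x₀ hx₀
      obtain ⟨x, hx, hcong⟩ := hSRJ k K c hc hck T q hqT (h1 q hqT) x₀ hx₀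
      have hxMT : x ∈ MT := by
        obtain ⟨b1, b2, b3⟩ := hx
        refine ⟨b1, b2, fun P hP => b3 P ?_⟩
        have hP' : P.under (𝓞 k) ∈ T' := hP
        show P.under (𝓞 k) ∈ T.erase q
        refine Finset.mem_erase.2 ⟨fun h => hq (h ▸ hP'), hT' (Finset.mem_insert_of_mem hP')⟩
      have hz : x₀ * x⁻¹ ∈ X := Subgroup.mul_mem _ hx₀ (Subgroup.inv_mem _ (e3 hxMT))
      have hz1 : x₀ * x⁻¹ ∈ X1 := by
        obtain ⟨a1, a2, -⟩ := hz
        refine ⟨a1, a2, fun P hP => ?_⟩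
        rw [Units.val_mul, Units.val_inv_eq_inv_val]
        exact hcong P hP
      have hprod : x * (x₀ * x⁻¹) ∈ MT ⊔ X1 :=
        Subgroup.mul_mem _ (Subgroup.mem_sup_left hxMT) (Subgroup.mem_sup_right hz1)
      have he : x * (x₀ * x⁻¹) = x₀ := by
        rw [mul_left_comm, mul_inv_cancel, mul_one]
      rw [he] at hprod
      exact hprod
    have e4 : (MT ⊓ X1).relIndex MT * MT.relIndex (Ml c W ∅) = (MT ⊓ X1).relIndex (Ml c W ∅) :=
      Subgroup.relIndex_mul_relIndex _ _ _ inf_le_left e2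
    have e6 : X1.relIndex MT = X1.relIndex X := by
      rw [← e5, Subgroup.relIndex_sup_right]
    rw [e1, ← e4, Subgroup.inf_relIndex_left, Nat.cast_mul, e6, hres, ih']

/-- ROW rmx:IAX. -/
theorem IAX (hRSX : RSX_stmt) (hSRJ : SRJ_stmt) : IAX_stmt := by
  intro k K _ _ _ _ _ _ _ _ c hc hck T h1 h3
  obtain ⟨hk1, hk⟩ := r_krn k K c hc hck
  set W : Set (HOS K) := {P : HOS K | P.under (𝓞 k) ∉ T} with hWdef
  have hmu : ∀ x ∈ IDA_mu K, ∃ ζ ∈ Units.torsion K, ((ζ : (𝓞 K)ˣ) : K) = x := by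
    rintro x ⟨ζ, hζ, rfl⟩
    exact ⟨ζ, hζ, rfl⟩
  have a1 : IDA_mu K ≤ Ml c W ∅ := by
    intro x hx
    obtain ⟨ζ, hζ, hx⟩ := hmu x hx
    refine ⟨?_, fun P _ => ?_, fun P hP => absurd hP (Set.notMem_empty P)⟩
    · rw [← hx]
      exact hk ζ hζ
    · rw [← hx]
      exact IDA_ord_unit ζ P
  have a2 : ∀ x ∈ IDA_mu K, x ∈ Ml c W {P : HOS K | P.under (𝓞 k) ∈ T} → x = 1 := by
    intro x hx hx'
    obtain ⟨ζ, hζ, hx⟩ := hmu x hx
    have h4 : ζ = 1 := h3 ζ hζ (fun P hP => by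
      rw [hx]
      exact hx'.2.2 P hP)
    apply Units.ext
    rw [← hx, h4]
    simp
  have a3 : Ml c W {P : HOS K | P.under (𝓞 k) ∈ T} ≤ Ml c W ∅ := by
    rintro x ⟨b1, b2, b3⟩
    exact ⟨b1, b2, fun P hP => absurd hP (Set.notMem_empty P)⟩
  have a4 : ∀ x ∈ Ml c W ∅, (∀ P : HOS K, ord P (x : K) = 0) → x ∈ IDA_mu K := by
    rintro x ⟨b1, -, -⟩ hx
    obtain ⟨ζ, hζ, hζx⟩ := hk1 (x : K) b1 hx
    refine ⟨ζ, hζ, ?_⟩
    apply Units.ext
    rw [← hζx]
    rfl
  have a5 := IAX_main c W {P : HOS K | P.under (𝓞 k) ∈ T} a1 a2 a3 a4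
  have a6 := IAX_prod hRSX hSRJ k K c hc hck T h1 T (Finset.Subset.refl T)
  rw [← a6, ← Nat.cast_mul, a5]

end Pool.Agent.RMX
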